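import Pool.Agent.Work.MP_9999b5_ms.Defs

/-! Block SumSq of MP_9999b5_co: second moment of a linear statistic over the `j`-subsets. -/

set_option autoImplicit false

namespace Pool.Agent.Work.MaxSums.helper83SumSq

open Finset

theorem split {ι : Type} [DecidableEq ι] (A : Finset ι) (j : ℕ) (Φ : ι → Finset ι → ℝ) :
    ∑ S ∈ A.powersetCard (j + 1), ∑ i ∈ S, Φ i S =
      ∑ i ∈ A, ∑ S ∈ (A.erase i).powersetCard j, Φ i (insert i S) := by
  rw [Finset.sum_sigma', Finset.sum_sigma']
  refine Finset.sum_bij' (fun p _ => ⟨p.2, p.1.erase p.2⟩) (fun q _ => ⟨insert q.1 q.2, q.1⟩)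
    ?_ ?_ ?_ ?_ ?_
  · rintro ⟨S, i⟩ h
    simp only [mem_sigma, mem_powersetCard] at h ⊢
    obtain ⟨⟨hS, hc⟩, hi⟩ := h
    refine ⟨hS hi, Finset.erase_subset_erase i hS, ?_⟩
    rw [Finset.card_erase_of_mem hi, hc]
    rfl
  · rintro ⟨i, S⟩ h
    simp only [mem_sigma, mem_powersetCard] at h ⊢
    obtain ⟨hi, hS, hc⟩ := h
    have hn : i ∉ S := fun h => (Finset.mem_erase.1 (hS h)).1 rfl
    refine ⟨⟨?_, ?_⟩, Finset.mem_insert_self _ _⟩
    · intro x hx
      rcases Finset.mem_insert.1 hx with rfl | hx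
      · exact hi
      · exact (Finset.mem_erase.1 (hS hx)).2
    · rw [Finset.card_insert_of_notMem hn, hc]
  · rintro ⟨S, i⟩ h
    simp only [mem_sigma, mem_powersetCard] at h
    simp only [Finset.insert_erase h.2]
  · rintro ⟨i, S⟩ h
    simp only [mem_sigma, mem_powersetCard] at h
    obtain ⟨hi, hS, hc⟩ := h
    have hn : i ∉ S := fun h => (Finset.mem_erase.1 (hS h)).1 rfl
    simp only [Finset.erase_insert hn]
  · rintro ⟨S, i⟩ h
    simp only [mem_sigma, mem_powersetCard] at h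
    simp only [Finset.insert_erase h.2]

theorem choose_id (m j : ℕ) :
    (m : ℝ) * ((m - 1).choose j : ℝ) = ((j : ℝ) + 1) * (m.choose (j + 1) : ℝ) := by
  rcases m with _ | m
  · simp
  · have h := Nat.add_one_mul_choose_eq m j
    have h2 : ((m + 1 : ℕ) : ℝ) * (m.choose j : ℝ) =
        (((m + 1).choose (j + 1) : ℕ) : ℝ) * ((j + 1 : ℕ) : ℝ) := by exact_mod_cast h
    simp only [Nat.add_sub_cancel]
    rw [h2]
    push_cast
    ring

theorem lin {ι : Type} [DecidableEq ι] (A : Finset ι) (j : ℕ) (g : ι → ℝ) :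
    (A.card : ℝ) * ∑ S ∈ A.powersetCard j, ∑ i ∈ S, g i
      = (j : ℝ) * (A.card.choose j : ℝ) * ∑ i ∈ A, g i := by
  rcases j with _ | j
  · simp
  · rw [split A j (fun i _ => g i)]
    have h1 : ∑ i ∈ A, ∑ S ∈ (A.erase i).powersetCard j, g i =
        ((A.card - 1).choose j : ℝ) * ∑ i ∈ A, g i := by
      rw [Finset.mul_sum]
      refine Finset.sum_congr rfl (fun i hi => ?_)
      rw [Finset.sum_const, Finset.card_powersetCard, Finset.card_erase_of_mem hi, nsmul_eq_mul]
    rw [h1, ← mul_assoc, choose_id]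
    push_cast
    ring

theorem holds : SumSq := by
  intro ι _ A j g
  rcases j with _ | j
  · simp
  · have h0 : ∀ S : Finset ι, (∑ i ∈ S, g i) ^ 2 = ∑ i ∈ S, g i * ∑ l ∈ S, g l := by
      intro S
      rw [← Finset.sum_mul, sq]
    have h1 : ∑ S ∈ A.powersetCard (j + 1), (∑ i ∈ S, g i) ^ 2 =
        ∑ i ∈ A, ∑ S ∈ (A.erase i).powersetCard j, g i * ∑ l ∈ insert i S, g l := by
      rw [← split A j (fun i S => g i * ∑ l ∈ S, g l)]
      exact Finset.sum_congr rfl (fun S _ => h0 S)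
    have h2 : ∀ i ∈ A, ((A.card : ℝ) - 1) *
        ∑ S ∈ (A.erase i).powersetCard j, g i * ∑ l ∈ insert i S, g l =
        ((A.card - 1).choose j : ℝ) *
          (((A.card : ℝ) - 1 - j) * g i ^ 2 + j * (g i * ∑ l ∈ A, g l)) := by
      intro i hi
      have hc : ((A.erase i).card : ℝ) = (A.card : ℝ) - 1 := by
        rw [Finset.card_erase_of_mem hi, Nat.cast_sub (Finset.card_pos.2 ⟨i, hi⟩)]
        simp
      have h3 := lin (A.erase i) j g
      rw [hc, Finset.card_erase_of_mem hi] at h3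
      have h4 : ∑ l ∈ A.erase i, g l = ∑ l ∈ A, g l - g i := by
        rw [← Finset.add_sum_erase A g hi]
        ring
      rw [h4] at h3
      have h5 : ∑ S ∈ (A.erase i).powersetCard j, g i * ∑ l ∈ insert i S, g l =
          ((A.card - 1).choose j : ℝ) * g i ^ 2 +
            g i * ∑ S ∈ (A.erase i).powersetCard j, ∑ l ∈ S, g l := by
        rw [Finset.mul_sum]
        have h6 : ((A.card - 1).choose j : ℝ) * g i ^ 2 =
            ∑ S ∈ (A.erase i).powersetCard j, g i ^ 2 := by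
          rw [Finset.sum_const, Finset.card_powersetCard, Finset.card_erase_of_mem hi,
            nsmul_eq_mul]
        rw [h6, ← Finset.sum_add_distrib]
        refine Finset.sum_congr rfl (fun S hS => ?_)
        have hn : i ∉ S := fun h =>
          (Finset.mem_erase.1 ((Finset.mem_powersetCard.1 hS).1 h)).1 rfl
        rw [Finset.sum_insert hn]
        ring
      rw [h5]
      linear_combination g i * h3
    have h7 : ((A.card : ℝ) - 1) * ∑ S ∈ A.powersetCard (j + 1), (∑ i ∈ S, g i) ^ 2 =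
        ((A.card - 1).choose j : ℝ) *
          (((A.card : ℝ) - 1 - j) * ∑ i ∈ A, g i ^ 2 + j * (∑ i ∈ A, g i) ^ 2) := by
      rw [h1, Finset.mul_sum, Finset.sum_congr rfl h2, ← Finset.mul_sum,
        Finset.sum_add_distrib, ← Finset.mul_sum, ← Finset.mul_sum, ← Finset.sum_mul, sq]
    have h8 := choose_id A.card j
    push_cast
    linear_combination (A.card : ℝ) * h7 +
      (((A.card : ℝ) - 1 - j) * ∑ i ∈ A, g i ^ 2 + j * (∑ i ∈ A, g i) ^ 2) * h8

end Pool.Agent.Work.MaxSums.helper83SumSq
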