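import Pool.Agent.Work.MP_9999b5_ms.Defs

/-! Block Double of MP_9999b5_co: the pairs `(T, S)` with `T` containing the maximum. -/

set_option autoImplicit false

namespace Pool.Agent.Work.MaxSums.helper83Double

open Finset

theorem swap {ι : Type} [DecidableEq ι] (R : Finset ι) (k l : ℕ) (P Q : Finset ι → Prop)
    [DecidablePred P] [DecidablePred Q] :
    ∑ S ∈ (R.powersetCard k).filter P, (((R \ S).powersetCard l).filter Q).card =
      ∑ U ∈ (R.powersetCard l).filter Q, (((R \ U).powersetCard k).filter P).card := by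
  simp only [Finset.card_eq_sum_ones]
  refine Finset.sum_comm' (fun S U => ?_)
  simp only [mem_filter, mem_powersetCard]
  constructor
  · rintro ⟨⟨⟨hS, hSc⟩, hP⟩, ⟨hU, hUc⟩, hQ⟩
    have hd : Disjoint S U := by
      rw [Finset.disjoint_left]
      intro x hx hx'
      exact (Finset.mem_sdiff.1 (hU hx')).2 hx
    refine ⟨⟨⟨?_, hSc⟩, hP⟩, ⟨fun x hx => (Finset.mem_sdiff.1 (hU hx)).1, hUc⟩, hQ⟩
    intro x hx
    exact Finset.mem_sdiff.2 ⟨hS hx, fun h => Finset.disjoint_left.1 hd hx h⟩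
  · rintro ⟨⟨⟨hS, hSc⟩, hP⟩, ⟨hU, hUc⟩, hQ⟩
    have hd : Disjoint S U := by
      rw [Finset.disjoint_left]
      intro x hx hx'
      exact (Finset.mem_sdiff.1 (hS hx)).2 hx'
    refine ⟨⟨⟨fun x hx => (Finset.mem_sdiff.1 (hS hx)).1, hSc⟩, hP⟩, ⟨?_, hUc⟩, hQ⟩
    intro x hx
    exact Finset.mem_sdiff.2 ⟨hU hx, fun h => Finset.disjoint_left.1 hd h hx⟩

theorem holds : Double := by
  intro ι _ A a x k n φ hk hA hn ha hxa hinj hsum hW
  classical
  have hRc : (A.erase a).card = n + k - 1 := by rw [Finset.card_erase_of_mem ha, hA]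
  -- all pairs
  have h1 : ∀ S ∈ ((A.erase a).powersetCard k).filter (fun S => 0 < ∑ i ∈ S, x i),
      ((n - 1).choose (k - 1) : ℝ) = (above x ((A.erase a) \ S) (k - 1) : ℝ) +
        (((((A.erase a) \ S).powersetCard (k - 1)).filter
          (fun U => ¬ (-1 < ∑ i ∈ U, x i))).card : ℝ) := by
    intro S hS
    obtain ⟨hS1, hS2⟩ := Finset.mem_powersetCard.1 (Finset.mem_filter.1 hS).1
    have hc : ((A.erase a) \ S).card = n - 1 := by
      rw [Finset.card_sdiff_of_subset hS1, hRc, hS2]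
      omega
    have h2 := Finset.card_filter_add_card_filter_not
      (s := ((A.erase a) \ S).powersetCard (k - 1)) (fun U => -1 < ∑ i ∈ U, x i)
    rw [Finset.card_powersetCard, hc] at h2
    unfold above
    exact_mod_cast h2.symm
  have h2 : (pos x (A.erase a) k : ℝ) * ((n - 1).choose (k - 1) : ℝ) =
      (pairs x (A.erase a) k : ℝ) +
        ∑ S ∈ ((A.erase a).powersetCard k).filter (fun S => 0 < ∑ i ∈ S, x i),
        (((((A.erase a) \ S).powersetCard (k - 1)).filter
          (fun U => ¬ (-1 < ∑ i ∈ U, x i))).card : ℝ) := by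
    unfold pos pairs
    rw [← nsmul_eq_mul, ← Finset.sum_const, Finset.sum_congr rfl h1, Finset.sum_add_distrib]
    push_cast
    rfl
  have h3 := swap (A.erase a) k (k - 1) (fun S => 0 < ∑ i ∈ S, x i)
    (fun U => ¬ (-1 < ∑ i ∈ U, x i))
  have h4 : ∑ S ∈ ((A.erase a).powersetCard k).filter (fun S => 0 < ∑ i ∈ S, x i),
        (((((A.erase a) \ S).powersetCard (k - 1)).filter
          (fun U => ¬ (-1 < ∑ i ∈ U, x i))).card : ℝ) =
      ∑ U ∈ ((A.erase a).powersetCard (k - 1)).filter (fun U => ¬ (-1 < ∑ i ∈ U, x i)),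
        (pos x ((A.erase a) \ U) k : ℝ) := by
    unfold pos
    exact_mod_cast h3
  rw [h2, h4, add_comm]
  refine add_le_add le_rfl ?_
  have h5 : ∀ U ∈ ((A.erase a).powersetCard (k - 1)).filter (fun U => ¬ (-1 < ∑ i ∈ U, x i)),
      φ * (n.choose k : ℝ) ≤ (pos x ((A.erase a) \ U) k : ℝ) := by
    intro U hU
    obtain ⟨hU0, hU3⟩ := Finset.mem_filter.1 hU
    obtain ⟨hU1, hU2⟩ := Finset.mem_powersetCard.1 hU0
    refine hW ι _ x ?_ ?_ ?_
    · rw [Finset.card_sdiff_of_subset hU1, hRc, hU2]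
      omega
    · refine hinj.mono ?_
      intro y hy
      have := (Finset.mem_sdiff.1 (Finset.mem_coe.1 hy)).1
      exact Finset.mem_coe.2 (Finset.mem_erase.1 this).2
    · have e1 := Finset.sum_sdiff (f := x) hU1
      have e2 := Finset.add_sum_erase A x ha
      rw [hxa] at e2
      have e3 := not_lt.1 hU3
      linarith
  have h6 : ((((A.erase a).powersetCard (k - 1)).filter
      (fun U => ¬ (-1 < ∑ i ∈ U, x i))).card : ℝ) =
      ((A.erase a).card.choose (k - 1) : ℝ) - above x (A.erase a) (k - 1) := by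
    have h7 := Finset.card_filter_add_card_filter_not
      (s := (A.erase a).powersetCard (k - 1)) (fun U => -1 < ∑ i ∈ U, x i)
    rw [Finset.card_powersetCard] at h7
    have h8 : (((A.erase a).card.choose (k - 1) : ℕ) : ℝ) =
      ((((A.erase a).powersetCard (k - 1)).filter (fun U => -1 < ∑ i ∈ U, x i)).card : ℝ) +
      ((((A.erase a).powersetCard (k - 1)).filter (fun U => ¬ (-1 < ∑ i ∈ U, x i))).card : ℝ) := by
      exact_mod_cast h7.symm
    unfold above
    linarith
  rw [← h6, mul_assoc, ← nsmul_eq_mul]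
  exact Finset.card_nsmul_le_sum _ _ _ h5

end Pool.Agent.Work.MaxSums.helper83Double
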